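import Pool.Agent.Helper15.BR.TriU
import Pool.Agent.Helper49.QU.Final
import Pool.Agent.Helper65.CL.Claim3
import Pool.Agent.Helper43.QA.Unr

/-!
# MIX: points over one number field
-/

set_option autoImplicit false

namespace Pool.Agent.Helper49.MIX

open Matrix MvPolynomial Pool.Agent.Helper49.QU Pool.Agent.Helper15.BR Pool.Agent.Helper8.QU
open NumberField Pool.Agent.Helper4.CB Pool.Agent.Helper65.CL
open Pool.Agent.Helper69.CB (TriDeg vl)
open Pool.Agent.Helper43.QA (quatSC quat_unr quat_det_ne)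

/-- unramified algebras stay unramified under a map which reflects divisibility by `P` -/
theorem unr_map {R S : Type} [CommRing R] [CommRing S] (f : R →+* S)
    (hf : Function.Injective f) {D : ℕ} (P : R) (hdvd : ∀ Q, f P ∣ f Q → P ∣ Q) (c : SC R D)
    (h : Unr P c) : Unr (f P) (mapSC f c) := by
  obtain ⟨g, s, h', c', h1, h2, h3, h4, h5⟩ := h
  refine ⟨g.map f, f s, f h', mapSC f c', ?_, ?_, ?_, ?_, ?_⟩
  · have h6 : (g.map f).det = f g.det := (RingHom.map_det f g).symm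
    rw [h6]
    exact fun h0 => h1 (hf (h0.trans (map_zero f).symm))
  · exact fun h0 => h2 (hf (h0.trans (map_zero f).symm))
  · exact fun hd => h3 (hdvd _ hd)
  · intro hd
    rw [det_LR_map f c'] at hd
    exact h4 (hdvd _ hd)
  · exact fun i j d => unr_eq_map f h5 i j d

variable {k : Type} [Field k] {n r : ℕ} {N : Fin r → ℕ}

theorem inc_injective : Function.Injective (inc n N k) :=
  MvPolynomial.rename_injective _ tix_injective

theorem inc_ne_zero {p : MvPolynomial (Fin n) k} (h : p ≠ 0) : inc n N k p ≠ 0 := fun h0 =>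
  h (inc_injective (h0.trans (map_zero _).symm))

/-- the inclusion as a ring homomorphism -/
noncomputable def ic (n : ℕ) {r : ℕ} (N : Fin r → ℕ) (k : Type) [Field k] :
    MvPolynomial (Fin n) k →+* MvPolynomial (Fin (vn N + n)) k :=
  (inc n N k : MvPolynomial (Fin n) k →+* MvPolynomial (Fin (vn N + n)) k)

theorem ic_apply (p : MvPolynomial (Fin n) k) : ic n N k p = inc n N k p := rfl

theorem ic_dvd {P Q : MvPolynomial (Fin n) k} : ic n N k P ∣ ic n N k Q ↔ P ∣ Q :=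
  rename_dvd_rename_iff tix_injective

theorem ic_ne_zero {p : MvPolynomial (Fin n) k} (h : p ≠ 0) : ic n N k p ≠ 0 := inc_ne_zero h

/-- an irreducible factor of an old polynomial is old -/
theorem old_of_dvd {p : MvPolynomial (Fin n) k} (hp : p ≠ 0)
    (P : MvPolynomial (Fin (vn N + n)) k) (hP : Irreducible P) (hd : P ∣ ic n N k p) :
    ∃ P0 : MvPolynomial (Fin n) k, Irreducible P0 ∧ P = ic n N k P0 ∧ P0 ∣ p ∧
      (∀ dm, TriDeg dm P0 → TriDeg dm P) ∧ ∀ Q, P ∣ ic n N k Q ↔ P0 ∣ Q := by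
  have hv : ∀ s : VI N, P.degreeOf (vix N s) = 0 := by
    intro s
    have h1 := Pool.Agent.Helper8.QU.degreeOf_le_of_dvd (vix N s) (ic_ne_zero hp) hd
    have h2 : (ic n N k p).degreeOf (vix N s) = 0 := by
      refine degreeOf_rename_of_notMem ?_
      rintro ⟨j, hj⟩
      exact vix_ne_tix s j hj.symm
    omega
  obtain ⟨P0, hP0, hPP, hdeg⟩ := exists_old P hP hv
  have hPP' : P = ic n N k P0 := hPP
  have hdvd : ∀ Q : MvPolynomial (Fin n) k, P ∣ ic n N k Q ↔ P0 ∣ Q := by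
    intro Q
    rw [hPP']
    exact ic_dvd
  refine ⟨P0, hP0, hPP', (hdvd _).1 hd, fun dm h1 j hj => ?_, hdvd⟩
  rcases mem_range_or j with ⟨s, rfl⟩ | ⟨j0, rfl⟩
  · rw [hv s]
    exact Nat.zero_le _
  · rw [hdeg j0]
    refine h1 j0 fun l hl => ?_
    rw [← hdeg l]
    exact hj _ (tix_lt_tix.2 hl)

/-- the dimensions of the mixed family -/
def Dmix (r : ℕ) {s : ℕ} (D : Fin s → ℕ) (x : Fin r ⊕ Fin s) : ℕ :=
  Sum.rec (motive := fun _ => ℕ) (fun _ => 4) D x

/-- the structure constants of the mixed family -/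
def cmix {R : Type} {r s : ℕ} (D : Fin s → ℕ) (a : Fin r → SC R 4) (c : ∀ j, SC R (D j))
    (x : Fin r ⊕ Fin s) : SC R (Dmix r D x) :=
  Sum.rec (motive := fun x => SC R (Dmix r D x)) a c x

/-- a divisor of the two coefficients or of nothing -/
theorem quat_case [CharZero k] (B : ∀ i : Fin r, Matrix (Fin (N i)) (Fin (N i)) (MvPolynomial (Fin n) k))
    (hB : ∀ i, (B i).IsSymm) (hr : ∀ i, ∃ f g : Fin 3 → Fin (N i), ((B i).submatrix f g).det ≠ 0)
    (hPB : ∀ i, ∀ P : MvPolynomial (Fin n) k, Irreducible P →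
      TriDeg 3 P ∨ ¬ Minors (B i) P ∨ SplitAt (B i) P) (i : Fin r)
    (P : MvPolynomial (Fin (vn N + n)) k) (hP : Irreducible P) :
    TriDeg 3 P ∨ Unr P (quatSC (aQ N B i) (bQ N B i)) := by
  by_cases h1 : P ∣ aQ N B i * bQ N B i
  · rcases factor_class 3 (by norm_num) B hB i (hr i) (hPB i) P hP h1 with h2 | h2
    · exact Or.inl h2
    · exact Or.inr (quat_unr _ _ _ hP h2)
  · right
    exact quat_unr _ _ _ hP ⟨0, 0, aQ N B i, bQ N B i, 1, 1, by simp,
        by simp, fun h2 => h1 (Dvd.dvd.mul_right h2 _), fun h2 => h1 (Dvd.dvd.mul_left h2 _),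
        fun h2 => hP.not_isUnit (isUnit_of_dvd_one h2), by simp⟩

/-- an algebra of the base -/
theorem alg_case {D : ℕ} (c : SC (MvPolynomial (Fin n) k) D) (hc : (LR c).det ≠ 0)
    (hPc : ∀ P : MvPolynomial (Fin n) k, Irreducible P → P ∣ (LR c).det → TriDeg 3 P ∨ Unr P c)
    (P : MvPolynomial (Fin (vn N + n)) k) (hP : Irreducible P)
    (hd : P ∣ (LR (mapSC (ic n N k) c)).det) :
    TriDeg 3 P ∨ Unr P (mapSC (ic n N k) c) := by
  rw [det_LR_map] at hd
  obtain ⟨P0, hP0, hPP, h1, h2, -⟩ := old_of_dvd hc P hP hd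
  rcases hPc P0 hP0 h1 with h3 | h3
  · exact Or.inl (h2 3 h3)
  · right
    rw [hPP]
    exact unr_map (ic n N k) inc_injective P0 (fun Q hQ => ic_dvd.1 hQ) c h3

/-- **points over one number field** -/
theorem pts (K : Type) [Field K] [NumberField K] {n r s : ℕ} {N : Fin r → ℕ}
    (B : ∀ i : Fin r, Matrix (Fin (N i)) (Fin (N i)) (MvPolynomial (Fin n) K))
    (hB : ∀ i, (B i).IsSymm) (hr : ∀ i, ∃ f g : Fin 3 → Fin (N i), ((B i).submatrix f g).det ≠ 0)
    (hPB : ∀ i, ∀ P : MvPolynomial (Fin n) K, Irreducible P →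
      TriDeg 3 P ∨ ¬ Minors (B i) P ∨ SplitAt (B i) P)
    (D : Fin s → ℕ) (c : ∀ j, SC (MvPolynomial (Fin n) K) (D j))
    (hc : ∀ j, (LR (c j)).det ≠ 0)
    (hPc : ∀ j, ∀ P : MvPolynomial (Fin n) K, Irreducible P → P ∣ (LR (c j)).det →
      TriDeg 3 P ∨ Unr P (c j)) (Λ : Finset ℕ) (hΛ : ∀ q ∈ Λ, q.Prime) (J1 : ℕ) :
    ∃ J, J1 ≤ J ∧ ∀ f : MvPolynomial (Fin (vn N + n)) K, f ≠ 0 →
      ∃ φ : MvPolynomial (Fin (vn N + n)) K →ₐ[K] K, φ f ≠ 0 ∧
        (∀ i, ∀ p : Pl K, Bad Λ J p → Good p (mapSC φ (quatSC (aQ N B i) (bQ N B i)))) ∧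
        ∀ j, ∀ p : Pl K, Bad Λ J p → Good p (mapSC φ (mapSC (ic n N K) (c j))) := by
  have hab := fun i => Pool.Agent.Helper28.QU.aQ_bQ_ne_zero B hB i (hr i)
  obtain ⟨J, hJ, hpt⟩ := tri_unr K (n := vn N + n) (dm := 3) (fun q hq => (hΛ q hq).two_le)
    (fun A Dg J0 => triClaim_three Λ hΛ K (vn N + n) A Dg J0) J1 (Dmix r D)
    (cmix D (fun i => quatSC (aQ N B i) (bQ N B i)) fun j => mapSC (ic n N K) (c j)) (by
      intro x
      cases x with
      | inl i => exact quat_det_ne two_ne_zero (hab i).1 (hab i).2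
      | inr j =>
        have h1 : (LR (mapSC (ic n N K) (c j))).det ≠ 0 := by
          rw [det_LR_map]
          exact ic_ne_zero (hc j)
        exact h1) (by
      intro x P hP hd
      cases x with
      | inl i => exact quat_case B hB hr hPB i P hP
      | inr j => exact alg_case (c j) (hc j) (hPc j) P hP hd)
  refine ⟨J, hJ, fun f hf => ?_⟩
  obtain ⟨φ, h1, h2⟩ := hpt f hf
  exact ⟨φ, h1, fun i => h2 (Sum.inl i), fun j => h2 (Sum.inr j)⟩

end Pool.Agent.Helper49.MIX
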