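import Pool.Agent.Helper15.BR.Desc
import Pool.Agent.Helper29.QI.Desc2
import Pool.Agent.Helper49.MIX.PtM

/-!
# MIX: descent to one number field
-/

set_option autoImplicit false

namespace Pool.Agent.Helper49.MIX

open Matrix MvPolynomial Pool.Agent.Helper49.QU Pool.Agent.Helper15.BR Pool.Agent.Helper49.QI
open Pool.Agent.Helper4.CB (exists_field)
open Pool.Agent.Helper69.CB (TriDeg)

/-- **descent**: quadrics and algebras at the same time; the finite extension contains a
primitive `e`-th root of unity -/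
theorem exists_M {K : Type} [Field K] [CharZero K] {n r s : ℕ} {N : Fin r → ℕ}
    (q : ∀ i : Fin r, Matrix (Fin (N i)) (Fin (N i)) (MvPolynomial (Fin n) K))
    (hq : ∀ i, (q i).IsSymm)
    (hq3 : ∀ i, ∃ f g : Fin 3 → Fin (N i), ((q i).submatrix f g).det ≠ 0)
    (D : Fin s → ℕ) (c : ∀ j, SC (MvPolynomial (Fin n) K) (D j)) (hc : ∀ j, (LR (c j)).det ≠ 0)
    (e : ℕ) (he : e ≠ 0)
    (h : ∀ P : MvPolynomial (Fin n) (AlgebraicClosure K), Irreducible P →
      (∀ k : Fin n, (∀ k' < k, P.degreeOf k' = 0) → P.degreeOf k ≤ 3) ∨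
      ((∀ i, SplitQ ((q i).map (MvPolynomial.map (algebraMap K (AlgebraicClosure K)))) P) ∧
        ∀ j, Unr P (mapSC (MvPolynomial.map (algebraMap K (AlgebraicClosure K))) (c j)))) :
    ∃ M : IntermediateField K (AlgebraicClosure K), FiniteDimensional K M ∧
      (∃ ζ : M, IsPrimitiveRoot ζ e) ∧
      (∀ i, ∀ P : MvPolynomial (Fin n) M, Irreducible P →
        TriDeg 3 P ∨ SplitQ ((q i).map (MvPolynomial.map (algebraMap K M))) P) ∧
      ∀ j, ∀ P : MvPolynomial (Fin n) M, Irreducible P →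
        P ∣ MvPolynomial.map (algebraMap K M) (LR (c j)).det →
        TriDeg 3 P ∨ Unr P (mapSC (MvPolynomial.map (algebraMap K M)) (c j)) := by
  classical
  let G : (Fin n → ℕ) → Prop := fun d => ∀ j, (∀ i < j, d i = 0) → d j ≤ 3
  have h1 := fun i => Pool.Agent.Helper29.QI.exists_dataQ (q i) (hq i) (hq3 i) G fun P hP =>
    (h P hP).imp id fun h' => h'.1 i
  choose T1 hT1 using h1
  have h2 := fun j => exists_data G (c j) (hc j) fun P hP _ => (h P hP).imp id fun h' => h'.2 j
  choose T2 hT2 using h2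
  have : NeZero (e : AlgebraicClosure K) := ⟨by
    have : CharZero (AlgebraicClosure K) :=
      charZero_of_injective_algebraMap (algebraMap K (AlgebraicClosure K)).injective
    exact_mod_cast he⟩
  obtain ⟨ζ, hζ⟩ := HasEnoughRootsOfUnity.exists_primitiveRoot (AlgebraicClosure K) e
  obtain ⟨M, hM, hMT⟩ := exists_field (K := K)
    (Finset.univ.biUnion T1 ∪ Finset.univ.biUnion T2 ∪
      {(C ζ : MvPolynomial (Fin n) (AlgebraicClosure K))})
  refine ⟨M, hM, ?_, fun i => hT1 i M fun p hp => hMT p (Finset.mem_union_left _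
    (Finset.mem_union_left _ (Finset.mem_biUnion.mpr ⟨i, Finset.mem_univ i, hp⟩))),
    fun j => hT2 j M fun p hp => hMT p (Finset.mem_union_left _
    (Finset.mem_union_right _ (Finset.mem_biUnion.mpr ⟨j, Finset.mem_univ j, hp⟩)))⟩
  obtain ⟨q, hq⟩ := hMT (C ζ) (by simp)
  have h2 : algebraMap M (AlgebraicClosure K) (q.coeff 0) = ζ := by
    have := congrArg (coeff 0) hq
    rwa [coeff_map, coeff_zero_C] at this
  exact ⟨q.coeff 0, IsPrimitiveRoot.of_map_of_injective (f := algebraMap M (AlgebraicClosure K))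
    (by rwa [h2]) (algebraMap M (AlgebraicClosure K)).injective⟩

end Pool.Agent.Helper49.MIX
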