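import Pool.Agent.Helper49.MIX.Hpt
import Pool.Agent.Helper83.QM.End

/-!
# MIX: families of quadrics and of Severi-Brauer varieties over affine space, the final theorem
-/

set_option autoImplicit false

namespace Pool.Agent.Helper49.MIX

open MvPolynomial TensorProduct AlgebraicGeometry CategoryTheory
open Pool.Agent.Helper15 Pool.Agent.Helper65.CB Pool.Agent.Helper35.BR
open Pool.Agent.Helper49.QI Pool.Agent.Helper10.BR Pool.Agent.Helper49.QU Pool.Agent.Helper83.QM

/-- **(I) over the affine space, intrinsic** -/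
theorem final_A (K : Type) [Field K] [NumberField K] (n r s : ℕ) (N : Fin r → ℕ)
    (q : ∀ i : Fin r, Matrix (Fin (N i)) (Fin (N i)) (MvPolynomial (Fin n) K))
    (hq : ∀ i, (q i).IsSymm)
    (hq3 : ∀ i, ∃ f g : Fin 3 → Fin (N i), ((q i).submatrix f g).det ≠ 0)
    (A : Fin s → Type) [∀ j, Ring (A j)] [∀ j, Algebra (MvPolynomial (Fin n) K) (A j)]
    [∀ j, Module.Finite (MvPolynomial (Fin n) K) (A j)] (m : Fin s → ℕ)
    (hc : ∀ j, Algebra.IsCentral (FractionRing (MvPolynomial (Fin n) K))
      (FractionRing (MvPolynomial (Fin n) K) ⊗[MvPolynomial (Fin n) K] A j))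
    (hs : ∀ j, IsSimpleRing
      (FractionRing (MvPolynomial (Fin n) K) ⊗[MvPolynomial (Fin n) K] A j))
    (hm : ∀ j, Module.finrank (FractionRing (MvPolynomial (Fin n) K))
      (FractionRing (MvPolynomial (Fin n) K) ⊗[MvPolynomial (Fin n) K] A j) = m j ^ 2)
    (h : ∀ P : MvPolynomial (Fin n) (AlgebraicClosure K), Irreducible P →
      (∀ k : Fin n, (∀ k' < k, P.degreeOf k' = 0) → P.degreeOf k ≤ 3) ∨
      ((∀ i, SplitQ ((q i).map (MvPolynomial.map (algebraMap K (AlgebraicClosure K)))) P) ∧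
        ∀ j, UnrAt (K := K) P (A j))) :
    ∃ d : MvPolynomial (Fin n) K, d ≠ 0 ∧ ∀ (X : Scheme.{0}) (t : X ⟶ Spec (CommRingCat.of K)),
      DominatedOver K X (Spec (CommRingCat.of (Localization.Away
        (algebraMap (MvPolynomial (Fin n) K) (QH q (HomRing (MvPolynomial (Fin n) K) A m)) d)))) t
        (Spec.map (CommRingCat.ofHom (algebraMap K (Localization.Away
          (algebraMap (MvPolynomial (Fin n) K) (QH q (HomRing (MvPolynomial (Fin n) K) A m)) d))))) →
      PotentiallyDense K X t := by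
  obtain ⟨L, i1, i2, i3, hL⟩ := hpt_A K n r s N q hq hq3 A m hc hs hm h
  have hfin : FiniteDimensional K L := Module.Finite.right ℚ K L
  exact qend K q hq hq3 A m hc hs hm L hL

end Pool.Agent.Helper49.MIX
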