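import Pool.Agent.Helper49.MIX.HptM
import Pool.Agent.Helper49.MIX.Desc

/-!
# MIX: points over one extension of the number field `K`
-/

set_option autoImplicit false

namespace Pool.Agent.Helper49.MIX

open Matrix MvPolynomial TensorProduct NumberField
open Pool.Agent.Helper49.QU Pool.Agent.Helper15.BR
open Pool.Agent.Helper69.BR Pool.Agent.Helper49.QI Pool.Agent.Helper10.BR
open Pool.Agent.Helper69.CB (TriDeg vl)
open Pool.Agent.Helper83.QM (Iso)
open Pool.Agent.Helper35.BR (Over)

/-- **points at which all quadrics are isotropic and all algebras are split** -/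
theorem hpt_A (K : Type) [Field K] [NumberField K] (n r s : ℕ) (N : Fin r → ℕ)
    (q : ∀ i : Fin r, Matrix (Fin (N i)) (Fin (N i)) (MvPolynomial (Fin n) K))
    (hq : ∀ i, (q i).IsSymm)
    (hq3 : ∀ i, ∃ f g : Fin 3 → Fin (N i), ((q i).submatrix f g).det ≠ 0)
    (A : Fin s → Type) [∀ j, Ring (A j)] [∀ j, Algebra (MvPolynomial (Fin n) K) (A j)]
    [∀ j, Module.Finite (MvPolynomial (Fin n) K) (A j)] (m : Fin s → ℕ)
    (hc : ∀ j, Algebra.IsCentral (FractionRing (MvPolynomial (Fin n) K))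
      (FractionRing (MvPolynomial (Fin n) K) ⊗[MvPolynomial (Fin n) K] A j))
    (hs : ∀ j, IsSimpleRing
      (FractionRing (MvPolynomial (Fin n) K) ⊗[MvPolynomial (Fin n) K] A j))
    (hm : ∀ j, Module.finrank (FractionRing (MvPolynomial (Fin n) K))
      (FractionRing (MvPolynomial (Fin n) K) ⊗[MvPolynomial (Fin n) K] A j) = m j ^ 2)
    (h : ∀ P : MvPolynomial (Fin n) (AlgebraicClosure K), Irreducible P →
      (∀ k : Fin n, (∀ k' < k, P.degreeOf k' = 0) → P.degreeOf k ≤ 3) ∨
      ((∀ i, SplitQ ((q i).map (MvPolynomial.map (algebraMap K (AlgebraicClosure K)))) P) ∧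
        ∀ j, UnrAt (K := K) P (A j))) :
    ∃ (L : Type) (_ : Field L) (_ : NumberField L) (_ : Algebra K L),
      ∀ f : MvPolynomial (Fin n) K, f ≠ 0 → ∃ φ : MvPolynomial (Fin n) K →ₐ[K] L,
        (∀ i, Iso ((q i).map φ)) ∧ φ f ≠ 0 ∧
        ∀ j, ∃ ρ : A j →+* Matrix (Fin (m j)) (Fin (m j)) L,
          Over (φ : MvPolynomial (Fin n) K →+* L) ρ := by
  classical
  choose hmpos e c h0 κ hstr hdet using fun j =>
    Pool.Agent.Helper10.BR.exists_str_det (m j) (hc j) (hs j) (hm j)
  have hE : 4 * ∏ j, m j ≠ 0 := mul_ne_zero (by norm_num)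
    (Finset.prod_ne_zero_iff.2 fun i _ => (hmpos i).ne')
  obtain ⟨M, hM, ⟨ζ, hζ⟩, hQ, hU⟩ := exists_M q hq hq3 (fun j => m j ^ 2) c hdet
    (4 * ∏ j, m j) hE (fun P hP => (h P hP).imp id fun h' =>
      ⟨h'.1, fun j => Pool.Agent.Helper10.BR.unr_of_unrAt (hstr j) P (h'.2 j)⟩)
  have hNF : NumberField M := NumberField.of_module_finite K M
  let μ : MvPolynomial (Fin n) K →+* MvPolynomial (Fin n) M :=
    MvPolynomial.map (algebraMap K M)
  have hμ : Function.Injective μ := MvPolynomial.map_injective _ (algebraMap K M).injective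
  have hμ0 : ∀ x, x ≠ 0 → μ x ≠ 0 := fun x hx h => hx (hμ (h.trans (map_zero μ).symm))
  obtain ⟨L, k1, k2, k3, hL⟩ := hpt_M M (fun i => (q i).map μ) (fun i => (hq i).map μ) (fun i => by
      obtain ⟨f, g, hfg⟩ := hq3 i
      refine ⟨f, g, ?_⟩
      have h1 : ((q i).map μ).submatrix f g = ((q i).submatrix f g).map μ := rfl
      have h2 : (((q i).submatrix f g).map μ).det = μ ((q i).submatrix f g).det :=
        (RingHom.map_det μ _).symm
      rw [h1, h2]
      exact hμ0 _ hfg) hQ m hmpos (fun j => mapSC μ (c j)) (fun j => by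
      rw [det_LR_map]
      exact hμ0 _ (hdet j)) (fun j P hP hd => by
      rw [det_LR_map] at hd
      exact hU j P hP hd) ζ hζ
  let aK : Algebra K L := ((algebraMap M L).comp (algebraMap K M)).toAlgebra
  have htow : IsScalarTower K M L := IsScalarTower.of_algebraMap_eq fun _ => rfl
  refine ⟨L, k1, k2, aK, fun f hf => ?_⟩
  obtain ⟨φ, h1, h2, h3⟩ := hL (μ (f * ∏ j, h0 j)) (hμ0 _ (mul_ne_zero hf
    (Finset.prod_ne_zero_iff.2 fun j _ => (hstr j).ne)))
  rw [map_mul, map_mul, map_prod, map_prod] at h1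
  let φ' : MvPolynomial (Fin n) K →ₐ[K] L :=
    { ((algebraMap M L).comp ((φ : MvPolynomial (Fin n) M →+* M).comp μ)) with
      commutes' := fun x => by
        have h5 : μ (algebraMap K (MvPolynomial (Fin n) K) x) =
            algebraMap M (MvPolynomial (Fin n) M) (algebraMap K M x) :=
          MvPolynomial.map_C _ x
        change algebraMap M L (φ (μ (algebraMap K (MvPolynomial (Fin n) K) x))) = _
        rw [h5, φ.commutes]
        rfl }
  have hφ' : ∀ x, φ' x = algebraMap M L (φ (μ x)) := fun _ => rfl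
  refine ⟨φ', fun i => h2 i, ?_, fun j => ?_⟩
  · rw [hφ']
    exact fun h => left_ne_zero_of_mul h1 ((algebraMap M L).injective
      (h.trans (map_zero _).symm))
  · exact h3 j (MvPolynomial (Fin n) K) (A j) (e j) (c j) (h0 j) (κ j) (hstr j) μ rfl
      (Finset.prod_ne_zero_iff.1 (right_ne_zero_of_mul h1) j (Finset.mem_univ j))

end Pool.Agent.Helper49.MIX
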