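import Pool.Agent.Helper83.QM.Defs

/-!
# MIX: isotropic vectors and change of lattice
-/

set_option autoImplicit false

namespace Pool.Agent.Helper49.MIX

open Matrix Pool.Agent.Helper49.QU Pool.Agent.Helper83.QM

theorem bil_sum2 {R : Type*} [CommRing R] {N M : ℕ} (B : Matrix (Fin N) (Fin N) R)
    (c d : Fin M → R) (T : Fin M → Fin N → R) :
    bil B (fun j => ∑ x, c x * T x j) (fun j => ∑ x, d x * T x j) =
      bil (Matrix.of fun x y => bil B (T x) (T y)) c d := by
  have h1 : ∀ w : Fin N → R, bil B (fun j => ∑ x, c x * T x j) w = ∑ x, c x * bil B (T x) w := by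
    intro w
    unfold bil
    simp only [Finset.sum_mul, Finset.mul_sum]
    rw [Finset.sum_congr rfl fun i _ => Finset.sum_comm, Finset.sum_comm]
    refine Finset.sum_congr rfl fun x _ => Finset.sum_congr rfl fun i _ =>
      Finset.sum_congr rfl fun j _ => by ring
  have h2 : ∀ v : Fin N → R, bil B v (fun j => ∑ x, d x * T x j) = ∑ x, d x * bil B v (T x) := by
    intro v
    unfold bil
    simp only [Finset.mul_sum]
    rw [Finset.sum_congr rfl fun i _ => Finset.sum_comm, Finset.sum_comm]
    refine Finset.sum_congr rfl fun x _ => Finset.sum_congr rfl fun i _ =>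
      Finset.sum_congr rfl fun j _ => by ring
  rw [h1]
  have h3 : bil (Matrix.of fun x y => bil B (T x) (T y)) c d =
      ∑ x, ∑ y, c x * bil B (T x) (T y) * d y := rfl
  rw [h3]
  refine Finset.sum_congr rfl fun x _ => ?_
  rw [h2, Finset.mul_sum]
  refine Finset.sum_congr rfl fun y _ => by ring

/-- isotropy passes from the lattice to the quadric -/
theorem iso_of_lattice {L : Type} [Field L] {N N' : ℕ} (B : Matrix (Fin N) (Fin N) L)
    (B' : Matrix (Fin N') (Fin N') L) (T : Fin N' → Fin N → L) (ρ : L) (hρ : ρ ≠ 0)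
    (hT : ∀ x y, bil B (T x) (T y) = ρ * B' x y) (h : Iso B') : Iso B := by
  obtain ⟨e, he, w, hw⟩ := h
  have hb : ∀ c d : Fin N' → L, bil B (fun j => ∑ x, c x * T x j) (fun j => ∑ x, d x * T x j) =
      ρ * bil B' c d := by
    intro c d
    rw [bil_sum2]
    unfold bil
    rw [Finset.mul_sum]
    refine Finset.sum_congr rfl fun x _ => ?_
    rw [Finset.mul_sum]
    refine Finset.sum_congr rfl fun y _ => ?_
    have h1 : (Matrix.of fun x y => ∑ i, ∑ j, T x i * B i j * T y j) x y = ρ * B' x y := hT x y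
    rw [h1]; ring
  refine ⟨fun j => ∑ x, e x * T x j, ?_, fun j => ∑ x, w x * T x j, ?_⟩
  · rw [hb, he, mul_zero]
  · rw [hb]
    exact mul_ne_zero hρ hw

end Pool.Agent.Helper49.MIX
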