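import Pool.Agent.Helper10.BR.Rep
import Pool.Agent.Helper15.BR.QuatD
import Pool.Agent.Helper43.QA.Unr
import Pool.Agent.Helper17.QM.Rep
import Pool.Agent.Helper16.QM.Conic
import Pool.Agent.Helper33.QU.Rings
import Pool.Agent.Helper49.MIX.PtM

/-!
# MIX: conics and isotropic vectors at points with good reduction
-/

set_option autoImplicit false

namespace Pool.Agent.Helper49.MIX

open Matrix MvPolynomial NumberField Pool.Agent.Helper49.QU Pool.Agent.Helper15.BR
open Pool.Agent.Helper4.CB Pool.Agent.Helper65.CL Pool.Agent.Helper69.BR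
open Pool.Agent.Helper83.QM (Iso)
open Pool.Agent.Helper35.BR (Over)
open Pool.Agent.Helper43.QA (quatSC quat_det_ne mapSC_quatSC)

theorem quatTab_eq {R : Type} [CommRing R] (a b : R) : quatTab a b = quatSC a b := by
  funext i j k
  fin_cases i <;> fin_cases j <;> fin_cases k <;> simp [quatTab, quatSC]

/-- a point of the conic over the extension -/
theorem conic_of_good {M L : Type} [Field M] [NumberField M] [Field L] [NumberField L]
    [Algebra M L] (J : ℕ)
    (hL : ∀ (R A : Type) [CommRing R] [Ring A] [Algebra R A] (e : Fin (2 ^ 2) → A)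
        (c : SC R (2 ^ 2)) (h0 : R) (κ : A →ₗ[R] (Fin (2 ^ 2) → R)) (_ : Str e c h0 κ)
        (φ : R →+* M), φ h0 ≠ 0 → φ (LR c).det ≠ 0 →
        (∀ p : Pl M, Bad (2 : ℕ).primeFactors J p → Good p (mapSC φ c)) →
        ∃ ρ : A →+* Matrix (Fin 2) (Fin 2) L, Over ((algebraMap M L).comp φ) ρ)
    {R : Type} [CommRing R] [Nontrivial R] (a b : R) (φ : R →+* M) (ha : φ a ≠ 0) (hb : φ b ≠ 0)
    (hg : ∀ p : Pl M, Bad (2 : ℕ).primeFactors J p → Good p (mapSC φ (quatSC a b))) :
    ∃ x y : L, x ^ 2 = algebraMap M L (φ a) * y ^ 2 + algebraMap M L (φ b) := by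
  obtain ⟨e, f, c, h0, rfl, rfl, h1, h2, h3, h4⟩ := quat_dual a b
  obtain ⟨κ, hκ⟩ := Pool.Agent.Helper10.BR.exists_str_of_dual h1 h2 h3 h4
  rw [← quatTab_eq] at hg
  obtain ⟨ρ, hρ⟩ := hL R (QuaternionAlgebra R a 0 b) e (quatTab a b) 1 κ hκ φ
    (by rw [map_one]; exact one_ne_zero) (by
      have h5 := det_LR_map φ (quatTab a b)
      have h6 : φ (LR (quatTab a b)).det ≠ 0 := by
        rw [← h5, quatTab_eq, mapSC_quatSC]
        exact quat_det_ne two_ne_zero ha hb
      exact h6) hg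
  have hinj := (algebraMap M L).injective
  exact Pool.Agent.Helper17.QM.conic_of_rep ((algebraMap M L).comp φ) a b
    (fun h => ha (hinj (h.trans (map_zero _).symm)))
    (fun h => hb (hinj (h.trans (map_zero _).symm))) ρ hρ

/-- an isotropic vector from a point of the conic -/
theorem iso_quad {k L : Type} [Field k] [Field L] {n r : ℕ} {N : Fin r → ℕ}
    (B : ∀ i : Fin r, Matrix (Fin (N i)) (Fin (N i)) (MvPolynomial (Fin n) k))
    (hB : ∀ i, (B i).IsSymm) (i : Fin r) (φ : MvPolynomial (Fin (vn N + n)) k →+* L) (x y : L)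
    (hxy : x ^ 2 = φ (aQ N B i) * y ^ 2 + φ (bQ N B i)) (hb : φ (bQ N B i) ≠ 0) :
    Iso ((B i).map (φ.comp (ic n N k))) := by
  have h1 : (B i).map (φ.comp (ic n N k)) = (incB N B i).map φ := rfl
  have h2 := Pool.Agent.Helper33.QU.map_qa φ (incB N B i) (gv n N k i)
  have h3 := Pool.Agent.Helper33.QU.map_qb φ (incB N B i) (gv n N k i)
  change φ (aQ N B i) = _ at h2
  change φ (bQ N B i) = _ at h3
  rw [h2, h3] at hxy
  rw [h3] at hb
  unfold qb at hb
  rw [neg_ne_zero] at hb
  rw [h1]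
  have hs : ((incB N B i).map φ).IsSymm := by
    ext a b
    have := (hB i).apply b a
    change φ (inc n N k (B i b a)) = φ (inc n N k (B i a b))
    rw [this]
  exact (Pool.Agent.Helper16.QM.iso_of_conic _ hs _ (left_ne_zero_of_mul (left_ne_zero_of_mul hb))
    (right_ne_zero_of_mul (left_ne_zero_of_mul hb)) (right_ne_zero_of_mul hb) x y hxy).1

end Pool.Agent.Helper49.MIX
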