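import Pool.Agent.Helper10.BR.Fin
import Pool.Agent.Helper49.QI.LatticeK
import Pool.Agent.Helper49.MIX.Iso
import Pool.Agent.Helper49.MIX.Quat

/-!
# MIX: points over one number field at which all quadrics are isotropic and all algebras are split
-/

set_option autoImplicit false

namespace Pool.Agent.Helper49.MIX

open Matrix MvPolynomial NumberField Pool.Agent.Helper49.QU Pool.Agent.Helper15.BR
open Pool.Agent.Helper4.CB Pool.Agent.Helper65.CL Pool.Agent.Helper69.BR Pool.Agent.Helper49.QI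
open Pool.Agent.Helper69.CB (TriDeg vl)
open Pool.Agent.Helper83.QM (Iso)
open Pool.Agent.Helper35.BR (Over)
open Pool.Agent.Helper43.QA (quatSC quat_det_ne mapSC_quatSC)

/-- isotropy through the lattice, at a point -/
theorem iso_point {R L : Type} [CommRing R] [Field L] {N N' : ℕ} (B : Matrix (Fin N) (Fin N) R)
    (B' : Matrix (Fin N') (Fin N') R) (T : Fin N' → Fin N → R) (ρ : R)
    (hT : ∀ x y, bil B (T x) (T y) = ρ * B' x y) (ψ : R →+* L) (hρ : ψ ρ ≠ 0)
    (h : Iso (B'.map ψ)) : Iso (B.map ψ) := by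
  refine iso_of_lattice (B.map ψ) (B'.map ψ) (fun x j => ψ (T x j)) (ψ ρ) hρ (fun x y => ?_) h
  have h1 := Pool.Agent.Helper33.QU.map_bil ψ B (T x) (T y)
  rw [← h1, hT, map_mul]
  rfl

/-- powers of a root of unity -/
theorem root_of_dvd {M : Type} [Field M] {E : ℕ} (hE : E ≠ 0) {ζ : M} (hζ : IsPrimitiveRoot ζ E)
    (l : ℕ) (hl : l ∣ E) : ∃ ζ' : M, IsPrimitiveRoot ζ' l := by
  obtain ⟨k, hk⟩ := hl
  exact ⟨ζ ^ k, hζ.pow (Nat.pos_of_ne_zero hE) (by rw [hk, mul_comm])⟩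

/-- one extension for the quaternion algebras and for finitely many degrees -/
theorem exists_L (M : Type) [Field M] [NumberField M] {s : ℕ} (m : Fin s → ℕ)
    (hm : ∀ j, 0 < m j) (ζ : M) (hζ : IsPrimitiveRoot ζ (4 * ∏ j, m j)) (J : ℕ) :
    ∃ (L : Type) (_ : Field L) (_ : NumberField L) (_ : Algebra M L),
      (∀ (R : Type) [CommRing R] [Nontrivial R] (a b : R) (φ : R →+* M), φ a ≠ 0 → φ b ≠ 0 →
        (∀ p : Pl M, Bad (2 : ℕ).primeFactors J p → Good p (mapSC φ (quatSC a b))) →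
        ∃ x y : L, x ^ 2 = algebraMap M L (φ a) * y ^ 2 + algebraMap M L (φ b)) ∧
      ∀ (j : Fin s) (R A : Type) [CommRing R] [Ring A] [Algebra R A] (e : Fin (m j ^ 2) → A)
        (c : SC R (m j ^ 2)) (h0 : R) (κ : A →ₗ[R] (Fin (m j ^ 2) → R)) (_ : Str e c h0 κ)
        (φ : R →+* M), φ h0 ≠ 0 → φ (LR c).det ≠ 0 →
        (∀ p : Pl M, Bad (m j).primeFactors J p → Good p (mapSC φ c)) →
        ∃ ρ : A →+* Matrix (Fin (m j)) (Fin (m j)) L, Over ((algebraMap M L).comp φ) ρ := by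
  have hE : 4 * ∏ j, m j ≠ 0 := mul_ne_zero (by norm_num)
    (Finset.prod_ne_zero_iff.2 fun i _ => (hm i).ne')
  have h4 : ∃ i : M, IsPrimitiveRoot i 4 := root_of_dvd hE hζ 4 (dvd_mul_right 4 _)
  let mm : Option (Fin s) → ℕ := fun x => x.elim 2 m
  have hmm : ∀ x, 0 < mm x := by
    rintro (_ | j)
    · exact two_pos
    · exact hm j
  have hdv : ∀ x, mm x ∣ 4 * ∏ j, m j := by
    rintro (_ | j)
    · exact (by norm_num : 2 ∣ 4).trans (dvd_mul_right 4 _)
    · exact dvd_mul_of_dvd_right (Finset.dvd_prod_of_mem m (Finset.mem_univ j)) 4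
  choose L iL nL aL hL using fun x => Pool.Agent.Helper10.BR.rep_of_good M (mm x) J (hmm x)
    (fun l _ hlm => root_of_dvd hE hζ l (hlm.trans (hdv x))) (fun _ => h4)
  obtain ⟨L', k1, k2, k3, hL'⟩ := Pool.Agent.Helper10.BR.exists_compositum (M := M) L
  refine ⟨L', k1, k2, k3, ?_, ?_⟩
  · intro R _ _ a b φ ha hb hg
    obtain ⟨x, y, hxy⟩ := conic_of_good J (hL none) a b φ ha hb hg
    obtain ⟨τ⟩ := hL' none
    refine ⟨τ x, τ y, ?_⟩
    have h1 := congrArg τ hxy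
    rw [map_pow, map_add, map_mul, map_pow, τ.commutes, τ.commutes] at h1
    exact h1
  · intro j R A _ _ _ e c h0 κ hs φ h1 h2 hg
    obtain ⟨ρ, hρ⟩ := hL (some j) R A e c h0 κ hs φ h1 h2 hg
    obtain ⟨τ⟩ := hL' (some j)
    refine ⟨((τ : L (some j) →+* L').mapMatrix).comp ρ, ?_⟩
    have h3 := hρ.comp (τ : L (some j) →+* L')
    have h4 : (τ : L (some j) →+* L').comp ((algebraMap M (L (some j))).comp φ) =
        (algebraMap M L').comp φ := RingHom.ext fun x => τ.commutes (φ x)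
    rw [h4] at h3
    exact h3

/-- **points over one number field** -/
theorem hpt_M (M : Type) [Field M] [NumberField M] {n r s : ℕ} {N : Fin r → ℕ}
    (q : ∀ i : Fin r, Matrix (Fin (N i)) (Fin (N i)) (MvPolynomial (Fin n) M))
    (hq : ∀ i, (q i).IsSymm)
    (hq3 : ∀ i, ∃ f g : Fin 3 → Fin (N i), ((q i).submatrix f g).det ≠ 0)
    (hQ : ∀ i, ∀ P : MvPolynomial (Fin n) M, Irreducible P → TriDeg 3 P ∨ SplitQ (q i) P)
    (m : Fin s → ℕ) (hm : ∀ j, 0 < m j)
    (c : ∀ j, SC (MvPolynomial (Fin n) M) (m j ^ 2)) (hc : ∀ j, (LR (c j)).det ≠ 0)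
    (hU : ∀ j, ∀ P : MvPolynomial (Fin n) M, Irreducible P → P ∣ (LR (c j)).det →
      TriDeg 3 P ∨ Unr P (c j))
    (ζ : M) (hζ : IsPrimitiveRoot ζ (4 * ∏ j, m j)) :
    ∃ (L : Type) (_ : Field L) (_ : NumberField L) (_ : Algebra M L),
      ∀ f : MvPolynomial (Fin n) M, f ≠ 0 → ∃ φ : MvPolynomial (Fin n) M →ₐ[M] M, φ f ≠ 0 ∧
        (∀ i, Iso ((q i).map ((algebraMap M L).comp (φ : MvPolynomial (Fin n) M →+* M)))) ∧
        ∀ (j : Fin s) (R A : Type) [CommRing R] [Ring A] [Algebra R A] (e : Fin (m j ^ 2) → A)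
          (c' : SC R (m j ^ 2)) (h0 : R) (κ : A →ₗ[R] (Fin (m j ^ 2) → R)) (_ : Str e c' h0 κ)
          (θ : R →+* MvPolynomial (Fin n) M), mapSC θ c' = c j → φ (θ h0) ≠ 0 →
          ∃ ρ : A →+* Matrix (Fin (m j)) (Fin (m j)) L,
            Over ((algebraMap M L).comp ((φ : MvPolynomial (Fin n) M →+* M).comp θ)) ρ := by
  classical
  choose N' T s' ρ mm B' hρ hmm hB' hs' hT hTs hr' hP' using fun i =>
    lattice (q i) (hq i) (hq3 i) (TriDeg 3) (hQ i)
  obtain ⟨J, -, hpt⟩ := pts M B' hB' hr' hP' (fun j => m j ^ 2) c hc hU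
    ((2 : ℕ).primeFactors ∪ Finset.univ.biUnion fun j => (m j).primeFactors) (fun l hl => by
      rcases Finset.mem_union.1 hl with h | h
      · exact Nat.prime_of_mem_primeFactors h
      · obtain ⟨j, -, hj⟩ := Finset.mem_biUnion.1 h
        exact Nat.prime_of_mem_primeFactors hj) 0
  obtain ⟨L, k1, k2, k3, hL1, hL2⟩ := exists_L M m hm ζ hζ J
  refine ⟨L, k1, k2, k3, fun f hf => ?_⟩
  have hab := fun i => Pool.Agent.Helper28.QU.aQ_bQ_ne_zero B' hB' i (hr' i)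
  obtain ⟨φ, h1, h2, h3⟩ := hpt (ic n N' M f * (∏ i, (aQ N' B' i * bQ N' B' i * ic n N' M (ρ i))) *
      ∏ j, ic n N' M (LR (c j)).det) (mul_ne_zero (mul_ne_zero (ic_ne_zero hf)
      (Finset.prod_ne_zero_iff.2 fun i _ => mul_ne_zero (mul_ne_zero (hab i).1 (hab i).2)
        (ic_ne_zero (hρ i)))) (Finset.prod_ne_zero_iff.2 fun j _ => ic_ne_zero (hc j)))
  rw [map_mul, map_mul, map_prod, map_prod] at h1
  have hf1 := left_ne_zero_of_mul (left_ne_zero_of_mul h1)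
  have hqi : ∀ i, φ (aQ N' B' i) ≠ 0 ∧ φ (bQ N' B' i) ≠ 0 ∧ φ (ic n N' M (ρ i)) ≠ 0 := by
    intro i
    have h4 := Finset.prod_ne_zero_iff.1 (right_ne_zero_of_mul (left_ne_zero_of_mul h1)) i
      (Finset.mem_univ i)
    rw [map_mul, map_mul] at h4
    exact ⟨left_ne_zero_of_mul (left_ne_zero_of_mul h4),
      right_ne_zero_of_mul (left_ne_zero_of_mul h4), right_ne_zero_of_mul h4⟩
  have hcj : ∀ j, φ (ic n N' M (LR (c j)).det) ≠ 0 := fun j =>
    Finset.prod_ne_zero_iff.1 (right_ne_zero_of_mul h1) j (Finset.mem_univ j)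
  have hinj := (algebraMap M L).injective
  refine ⟨φ.comp (inc n N' M), hf1, fun i => ?_, ?_⟩
  · obtain ⟨x, y, hxy⟩ := hL1 _ (aQ N' B' i) (bQ N' B' i)
      (φ : MvPolynomial (Fin (vn N' + n)) M →+* M) (hqi i).1 (hqi i).2.1 (fun p hp => by
        obtain ⟨l, hl, hl2⟩ := hp
        exact h2 i p ⟨l, Finset.mem_union_left _ hl, hl2⟩)
    have h5 := iso_quad B' hB' i ((algebraMap M L).comp
      (φ : MvPolynomial (Fin (vn N' + n)) M →+* M)) x y hxy
      (fun h => (hqi i).2.1 (hinj (h.trans (map_zero _).symm)))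
    exact iso_point (q i) (B' i) (T i) (ρ i) (hT i) (((algebraMap M L).comp
      (φ : MvPolynomial (Fin (vn N' + n)) M →+* M)).comp (ic n N' M))
      (fun h => (hqi i).2.2 (hinj (h.trans (map_zero _).symm))) h5
  · intro j R A _ _ _ e c' h0 κ hs θ hθ hh0
    have key : ((φ.comp (inc n N' M) : MvPolynomial (Fin n) M →ₐ[M] M) :
        MvPolynomial (Fin n) M →+* M) = (φ : MvPolynomial (Fin (vn N' + n)) M →+* M).comp
          (ic n N' M) := rfl
    refine hL2 j R A e c' h0 κ hs (((φ.comp (inc n N' M) : MvPolynomial (Fin n) M →ₐ[M] M) :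
        MvPolynomial (Fin n) M →+* M).comp θ) hh0 ?_ ?_
    · have h6 := det_LR_map θ c'
      rw [hθ] at h6
      have h7 := hcj j
      rw [h6] at h7
      exact h7
    · intro p hp
      obtain ⟨l, hl, hl2⟩ := hp
      have h8 := h3 j p ⟨l, Finset.mem_union_right _
        (Finset.mem_biUnion.2 ⟨j, Finset.mem_univ j, hl⟩), hl2⟩
      rw [← hθ] at h8
      exact h8

end Pool.Agent.Helper49.MIX
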